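import Mathlib

/-!
# MP_bb77e0: the space of mm-spaces with the concentration topology is not σ-compact
-/

namespace Pool.Agent.Results.MP_bb77e0_gt.NotSigmaCompact

open Set Topology Filter MeasureTheory TopologicalSpace
open scoped ENNReal NNReal

/-- An mm-space: a complete separable metric space with a Borel probability measure. -/
structure MMSpace : Type 1 where
  /-- the underlying set -/
  carrier : Type
  [metric : MetricSpace carrier]
  [complete : CompleteSpace carrier]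
  [separable : SeparableSpace carrier]
  [measurable : MeasurableSpace carrier]
  [borel : BorelSpace carrier]
  /-- the measure -/
  μ : Measure carrier
  [prob : IsProbabilityMeasure μ]

attribute [instance] MMSpace.metric MMSpace.complete MMSpace.separable MMSpace.measurable
  MMSpace.borel MMSpace.prob

instance : CoeSort MMSpace Type := ⟨MMSpace.carrier⟩

/-- mm-isomorphism: an isometry between the supports carrying one measure to the other. -/
def MMIso (X Y : MMSpace) : Prop :=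
  ∃ f : X.μ.support ≃ᵢ Y.μ.support,
    Measure.map f (X.μ.comap Subtype.val) = Y.μ.comap Subtype.val

/-- the set of mm-isomorphism classes -/
def MMClass : Type 1 := Quot MMIso

/-- the class of an mm-space -/
def MMSpace.cls (X : MMSpace) : MMClass := Quot.mk MMIso X

/-- `I = [0,1)` -/
abbrev I01 : Type := Ico (0 : ℝ) 1

/-- Lebesgue measure on `I = [0,1)` -/
noncomputable def leb : Measure I01 := Measure.comap Subtype.val volume

/-- real `1`-Lipschitz functions -/
def Lip1 (X : MMSpace) : Set (X → ℝ) := {f | LipschitzWith 1 f}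

/-- parameters of `X` -/
def IsParam (X : MMSpace) (φ : I01 → X) : Prop := Measurable φ ∧ Measure.map φ leb = X.μ

/-- the Ky Fan metric -/
noncomputable def dKF (f g : I01 → ℝ) : ℝ≥0∞ :=
  sInf {ε : ℝ≥0∞ | leb {t | ε < edist (f t) (g t)} ≤ ε}

/-- the Hausdorff distance for `dKF` -/
noncomputable def dH (A B : Set (I01 → ℝ)) : ℝ≥0∞ :=
  max (⨆ f ∈ A, ⨅ g ∈ B, dKF f g) (⨆ g ∈ B, ⨅ f ∈ A, dKF f g)

/-- the observable distance -/
noncomputable def dconc (X Y : MMSpace) : ℝ≥0∞ :=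
  ⨅ (φ : I01 → X) (_ : IsParam X φ) (ψ : I01 → Y) (_ : IsParam Y ψ),
    dH ((fun f => f ∘ φ) '' Lip1 X) ((fun g => g ∘ ψ) '' Lip1 Y)

/-- the concentration topology: the topology induced by the observable distance. -/
instance : TopologicalSpace MMClass where
  IsOpen U := ∀ X : MMSpace, X.cls ∈ U → ∃ ε > 0, ∀ Y : MMSpace, dconc X Y < ε → Y.cls ∈ U
  isOpen_univ := fun _ _ => ⟨1, one_pos, fun _ _ => mem_univ _⟩
  isOpen_inter := by
    rintro U V hU hV X ⟨hXU, hXV⟩
    obtain ⟨ε, hε, h⟩ := hU X hXU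
    obtain ⟨ε', hε', h'⟩ := hV X hXV
    exact ⟨min ε ε', lt_min hε hε', fun Y hY => ⟨h Y (hY.trans_le (min_le_left _ _)),
      h' Y (hY.trans_le (min_le_right _ _))⟩⟩
  isOpen_sUnion := by
    rintro s hs X ⟨U, hU, hX⟩
    obtain ⟨ε, hε, h⟩ := hs U hU X hX
    exact ⟨ε, hε, fun Y hY => ⟨U, hU, h Y hY⟩⟩

/-! ### The observable-diameter type invariant -/

/-- every `1`-Lipschitz function is `R`-close to a constant off a set of measure `κ` -/
def P (Y : MMSpace) (κ : ℝ≥0∞) (R : ℝ) : Prop :=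
  ∀ g : Y → ℝ, LipschitzWith 1 g → ∃ c : ℝ, Y.μ {y | R < |g y - c|} ≤ κ

theorem P.iso {X Y : MMSpace} (h : MMIso X Y) {κ : ℝ≥0∞} {R : ℝ} (hX : P X κ R) : P Y κ R := by
  obtain ⟨f, hf⟩ := h
  intro g hg
  classical
  -- the transported function
  let g₀ : X → ℝ := fun x => if hx : x ∈ X.μ.support then g (f ⟨x, hx⟩) else 0
  have hg₀ : LipschitzOnWith 1 g₀ X.μ.support := by
    intro x hx y hy
    simp only [g₀, dif_pos hx, dif_pos hy]
    refine (hg _ _).trans ?_
    gcongr
    exact (f.isometry.edist_eq ⟨x, hx⟩ ⟨y, hy⟩).le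
  obtain ⟨g₁, hg₁, hgg⟩ := hg₀.extend_real
  obtain ⟨c, hc⟩ := hX g₁ hg₁
  refine ⟨c, ?_⟩
  have hme : ∀ Z : MMSpace, MeasurableEmbedding (Subtype.val : Z.μ.support → Z) := fun Z =>
    MeasurableEmbedding.subtype_coe Measure.isClosed_support.measurableSet
  have hms : MeasurableSet {y : Y | R < |g y - c|} :=
    (isOpen_lt continuous_const (hg.continuous.sub continuous_const).abs).measurableSet
  haveI : SecondCountableTopology X := UniformSpace.secondCountable_of_separable X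
  haveI : SecondCountableTopology Y := UniformSpace.secondCountable_of_separable Y
  have h1 : Y.μ {y | R < |g y - c|} =
      (Y.μ.comap Subtype.val) ((Subtype.val : Y.μ.support → Y) ⁻¹' {y | R < |g y - c|}) := by
    rw [(hme Y).comap_apply, Subtype.image_preimage_coe]
    exact (Measure.measure_inter_eq_of_ae (μ := Y.μ) (t := Y.μ.support) Measure.support_mem_ae).symm
  have h2 : X.μ {y | R < |g₁ y - c|} =
      (X.μ.comap Subtype.val) ((Subtype.val : X.μ.support → X) ⁻¹' {y | R < |g₁ y - c|}) := by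
    rw [(hme X).comap_apply, Subtype.image_preimage_coe]
    exact (Measure.measure_inter_eq_of_ae (μ := X.μ) (t := X.μ.support) Measure.support_mem_ae).symm
  rw [h1, ← hf, Measure.map_apply f.continuous.measurable (hms.preimage measurable_subtype_coe)]
  rw [h2] at hc
  refine le_trans (measure_mono ?_) hc
  intro x hx
  have h3 : g₁ x = g (f x) := by
    rw [← hgg x.2]
    simp only [g₀, dif_pos x.2]
  show R < |g₁ x - c|
  rw [h3]
  exact hx

theorem MMIso.symm {X Y : MMSpace} (h : MMIso X Y) : MMIso Y X := by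
  obtain ⟨f, hf⟩ := h
  refine ⟨f.symm, ?_⟩
  rw [← hf, Measure.map_map f.symm.continuous.measurable f.continuous.measurable]
  have : (⇑f.symm ∘ ⇑f) = id := by
    funext x
    simp
  rw [this, Measure.map_id]

/-- the open set of classes with small observable diameter -/
def U (κ : ℝ≥0∞) (R : ℝ) : Set MMClass :=
  {Q | Quot.lift (fun X : MMSpace => ∃ κ' < κ, ∃ R' < R, P X κ' R') (by
    intro X Y h
    apply propext
    constructor
    · rintro ⟨κ', hκ, R', hR, hP⟩
      exact ⟨κ', hκ, R', hR, hP.iso h⟩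
    · rintro ⟨κ', hκ, R', hR, hP⟩
      exact ⟨κ', hκ, R', hR, hP.iso h.symm⟩) Q}

theorem mem_U {κ : ℝ≥0∞} {R : ℝ} {X : MMSpace} :
    X.cls ∈ U κ R ↔ ∃ κ' < κ, ∃ R' < R, P X κ' R' := Iff.rfl

theorem U_mono {κ : ℝ≥0∞} {R R' : ℝ} (h : R ≤ R') : U κ R ⊆ U κ R' := by
  intro Q
  induction Q using Quot.ind with
  | mk X =>
    rintro ⟨κ', hκ, R'', hR, hP⟩
    exact ⟨κ', hκ, R'', hR.trans_le h, hP⟩

theorem P_of_dconc {Y Z : MMSpace} {κ : ℝ≥0∞} {R : ℝ} (hP : P Y κ R) {ε : ℝ≥0}
    (hd : dconc Y Z < ε) : P Z (κ + ε) (R + ε) := by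
  simp only [dconc, iInf_lt_iff] at hd
  obtain ⟨φ, hφ, ψ, hψ, hd⟩ := hd
  intro g hg
  have h1 : (⨅ f ∈ (fun f => f ∘ φ) '' Lip1 Y, dKF f (g ∘ ψ)) < ε := by
    refine lt_of_le_of_lt ?_ ((le_max_right _ _).trans_lt hd)
    exact le_iSup₂ (f := fun (g' : I01 → ℝ) (_ : g' ∈ (fun g => g ∘ ψ) '' Lip1 Z) =>
      ⨅ f ∈ (fun f => f ∘ φ) '' Lip1 Y, dKF f g') (g ∘ ψ) ⟨g, hg, rfl⟩
  simp only [iInf_lt_iff] at h1
  obtain ⟨_, ⟨f, hf, rfl⟩, h2⟩ := h1
  obtain ⟨ε', hε', hlt⟩ := sInf_lt_iff.1 h2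
  have hf' : LipschitzWith 1 f := hf
  obtain ⟨c, hc⟩ := hP f hf'
  refine ⟨c, ?_⟩
  have hmY : MeasurableSet {y : Y | R < |f y - c|} :=
    (isOpen_lt continuous_const (hf'.continuous.sub continuous_const).abs).measurableSet
  have hmZ : MeasurableSet {z : Z | R + ε < |g z - c|} :=
    (isOpen_lt continuous_const (hg.continuous.sub continuous_const).abs).measurableSet
  rw [← hψ.2, Measure.map_apply hψ.1 hmZ]
  rw [← hφ.2, Measure.map_apply hφ.1 hmY] at hc
  have hε'' : leb {t | (ε' : ℝ≥0∞) < edist ((f ∘ φ) t) ((g ∘ ψ) t)} ≤ ε' := hε'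
  calc leb (ψ ⁻¹' {z : Z | R + ε < |g z - c|})
      ≤ leb (φ ⁻¹' {y : Y | R < |f y - c|} ∪
          {t | (ε' : ℝ≥0∞) < edist ((f ∘ φ) t) ((g ∘ ψ) t)}) := by
        refine measure_mono ?_
        intro t ht
        by_contra hcon
        rw [mem_union, not_or] at hcon
        obtain ⟨h3, h4⟩ := hcon
        have h5 : |f (φ t) - c| ≤ R := not_lt.1 h3
        have h6 : edist (f (φ t)) (g (ψ t)) ≤ ε' := not_lt.1 h4
        have h7 : edist (f (φ t)) (g (ψ t)) ≤ (ε : ℝ≥0∞) := h6.trans hlt.le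
        rw [edist_dist, Real.dist_eq] at h7
        have h8 : |f (φ t) - g (ψ t)| ≤ ε := by
          have := ENNReal.ofReal_le_iff_le_toReal (ENNReal.coe_ne_top) |>.1 h7
          simpa using this
        have h9 : R + ε < |g (ψ t) - c| := ht
        have h10 : |g (ψ t) - c| ≤ |f (φ t) - g (ψ t)| + |f (φ t) - c| := by
          have : g (ψ t) - c = -(f (φ t) - g (ψ t)) + (f (φ t) - c) := by ring
          rw [this]
          refine (abs_add_le _ _).trans ?_
          rw [abs_neg]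
        linarith
    _ ≤ leb (φ ⁻¹' {y : Y | R < |f y - c|}) +
          leb {t | (ε' : ℝ≥0∞) < edist ((f ∘ φ) t) ((g ∘ ψ) t)} := measure_union_le _ _
    _ ≤ κ + ε := add_le_add hc (hε''.trans hlt.le)

theorem isOpen_U (κ : ℝ≥0∞) (R : ℝ) : IsOpen (U κ R) := by
  intro Y hY
  obtain ⟨κ', hκ, R', hR, hP⟩ := mem_U.1 hY
  obtain ⟨r, hr, hrκ⟩ := ENNReal.lt_iff_exists_add_pos_lt.1 hκ
  let s : ℝ≥0 := ⟨(R - R') / 2, by linarith⟩
  have hs : 0 < s := by
    show (0 : ℝ) < (R - R') / 2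
    linarith
  refine ⟨((min r s : ℝ≥0) : ℝ≥0∞), by simpa using ⟨hr, hs⟩, fun Z hZ => ?_⟩
  refine mem_U.2 ⟨κ' + (min r s : ℝ≥0), ?_, R' + (min r s : ℝ≥0), ?_, P_of_dconc hP hZ⟩
  · refine lt_of_le_of_lt ?_ hrκ
    gcongr
    exact min_le_left _ _
  · have h1 : ((min r s : ℝ≥0) : ℝ) ≤ (s : ℝ) := by
      exact_mod_cast min_le_right r s
    have h2 : (s : ℝ) = (R - R') / 2 := rfl
    linarith

theorem exists_mem_U {κ : ℝ≥0∞} (hκ : 0 < κ) (Q : MMClass) : ∃ n : ℕ, Q ∈ U κ n := by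
  induction Q using Quot.ind with
  | mk X =>
    obtain ⟨κ', hκ'0, hκ'⟩ := exists_between hκ
    have hne : Nonempty X := by
      by_contra h
      rw [not_nonempty_iff] at h
      have h1 : X.μ univ = 1 := measure_univ
      rw [univ_eq_empty_iff.2 h, measure_empty] at h1
      exact zero_ne_one h1
    obtain ⟨y₀⟩ := hne
    have h1 : Tendsto (fun n : ℕ => X.μ (Metric.closedBall y₀ n)ᶜ) atTop (𝓝 0) := by
      have h2 : ⋂ n : ℕ, (Metric.closedBall y₀ n)ᶜ = (∅ : Set X) := by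
        rw [eq_empty_iff_forall_notMem]
        intro y hy
        obtain ⟨n, hn⟩ := exists_nat_ge (dist y y₀)
        exact (mem_iInter.1 hy n) hn
      have h3 := tendsto_measure_iInter_atTop (μ := X.μ)
        (s := fun n : ℕ => (Metric.closedBall y₀ n)ᶜ)
        (fun n => Metric.isClosed_closedBall.isOpen_compl.measurableSet.nullMeasurableSet)
        (fun a b hab => compl_subset_compl.2 (Metric.closedBall_subset_closedBall
          (by exact_mod_cast hab))) ⟨0, measure_ne_top _ _⟩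
      rw [h2, measure_empty] at h3
      exact h3
    obtain ⟨n, hn⟩ := (h1.eventually (gt_mem_nhds hκ'0)).exists
    refine ⟨n + 1, κ', hκ', n, by push_cast; linarith, fun g hg => ⟨g y₀, ?_⟩⟩
    refine le_trans (measure_mono ?_) hn.le
    intro y hy
    have h4 : (n : ℝ) < |g y - g y₀| := hy
    have h5 : |g y - g y₀| ≤ dist y y₀ := by
      have := hg.dist_le_mul y y₀
      rwa [Real.dist_eq, NNReal.coe_one, one_mul] at this
    intro hy'
    rw [Metric.mem_closedBall] at hy'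
    linarith

/-- weights -/
noncomputable def w (k : ℕ) : ℝ≥0∞ := (2 : ℝ≥0∞)⁻¹ ^ (k + 1)

theorem tsum_w : ∑' k, w k = 1 := by
  unfold w
  have h1 : ∀ k : ℕ, (2 : ℝ≥0∞)⁻¹ ^ (k + 1) = 2⁻¹ * (2 : ℝ≥0∞)⁻¹ ^ k := fun k => pow_succ' _ _
  simp_rw [h1]
  rw [ENNReal.tsum_mul_left, ENNReal.tsum_geometric, ENNReal.one_sub_inv_two, inv_inv]
  exact ENNReal.inv_mul_cancel (by norm_num) (by norm_num)

/-- the real line with an atomic measure -/
noncomputable def bad (t : ℕ → ℝ) : MMSpace where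
  carrier := ℝ
  μ := Measure.sum fun k => w k • Measure.dirac (t k)
  prob := ⟨by
    rw [Measure.sum_apply _ MeasurableSet.univ]
    simp only [Measure.smul_apply, measure_univ, smul_eq_mul, mul_one]
    exact tsum_w⟩

theorem bad_atom (t : ℕ → ℝ) (S : Set ℝ) (hS : MeasurableSet S) (k : ℕ) (hk : t k ∈ S) :
    w k ≤ (bad t).μ S := by
  show w k ≤ (Measure.sum fun k => w k • Measure.dirac (t k)) S
  rw [Measure.sum_apply _ hS]
  refine le_trans ?_ (ENNReal.le_tsum k)
  rw [Measure.smul_apply, Measure.dirac_apply' _ hS, indicator_of_mem hk]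
  simp

/-- **The space of mm-spaces with the concentration topology is not σ-compact.** -/
theorem result : ¬ SigmaCompactSpace MMClass := by
  intro hσ
  let κ : ℕ → ℝ≥0∞ := fun n => (2 : ℝ≥0∞)⁻¹ ^ (n + 3)
  have hκ0 : ∀ n, 0 < κ n := fun n => ENNReal.pow_pos (by simp) _
  have hR : ∀ n, ∃ R : ℕ, compactCovering MMClass n ⊆ U (κ n) R := by
    intro n
    apply (isCompact_compactCovering MMClass n).elim_directed_cover
    · exact fun i => isOpen_U _ _
    · intro Q _
      obtain ⟨m, hm⟩ := exists_mem_U (hκ0 n) Q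
      exact mem_iUnion.2 ⟨m, hm⟩
    · exact directed_of_isDirected_le fun a b hab => U_mono (by exact_mod_cast hab)
  choose R hR using hR
  let t : ℕ → ℝ := fun n => Nat.rec 0 (fun n x => x + 2 * R n + 1) n
  have ht : ∀ n, t (n + 1) = t n + 2 * R n + 1 := fun n => rfl
  have hmem : (bad t).cls ∈ ⋃ n, compactCovering MMClass n := by
    rw [iUnion_compactCovering]
    exact mem_univ _
  obtain ⟨n, hn⟩ := mem_iUnion.1 hmem
  obtain ⟨κ', hκ', R', hR', hP⟩ := mem_U.1 (hR n hn)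
  obtain ⟨c, hc⟩ := hP (fun x : ℝ => x) LipschitzWith.id
  have hms : MeasurableSet {x : ℝ | R' < |x - c|} :=
    (isOpen_lt continuous_const (continuous_id.sub continuous_const).abs).measurableSet
  have hw : ∀ k, k = n ∨ k = n + 1 → κ n < w k := by
    intro k hk
    have h1 : (2 : ℝ≥0∞)⁻¹ ^ (n + 3) < (2 : ℝ≥0∞)⁻¹ ^ (k + 1) := by
      rw [ENNReal.inv_pow.symm, ENNReal.inv_pow.symm, ENNReal.inv_lt_inv]
      have h2 : 2 ^ (k + 1) < 2 ^ (n + 3) := Nat.pow_lt_pow_right (by norm_num) (by omega)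
      exact_mod_cast h2
    exact h1
  have hex : ∃ k, (k = n ∨ k = n + 1) ∧ t k ∈ {x : ℝ | R' < |x - c|} := by
    classical
    by_contra hcon
    push Not at hcon
    have h1 := hcon n (Or.inl rfl)
    have h2 := hcon (n + 1) (Or.inr rfl)
    have h1' : |t n - c| ≤ R' := not_lt.1 h1
    have h2' : |t (n + 1) - c| ≤ R' := not_lt.1 h2
    rw [ht n] at h2'
    rw [abs_le] at h1' h2'
    linarith
  obtain ⟨k, hk, hkm⟩ := hex
  have h1 := bad_atom t _ hms k hkm
  exact absurd ((h1.trans hc).trans hκ'.le) (not_le.2 (hw k hk))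

end Pool.Agent.Results.MP_bb77e0_gt.NotSigmaCompact
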